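import Pool.Agent.Y977.D4.MassCore

/-!
# Gaussian integers: moduli all of whose prime divisors come with their conjugates (core)
-/

set_option autoImplicit false
set_option linter.unusedSectionVars false

open Finset

namespace Pool.Agent.Y977.D4

theorem nn_star (p : GaussianInt) : nn (star p) = nn p := by
  unfold nn
  rw [Zsqrtd.norm_conj]

theorem mul_star_nn (p : GaussianInt) : p * star p = ((nn p : ℕ) : GaussianInt) := by
  rw [← Zsqrtd.norm_eq_mul_conj]
  unfold nn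
  rw [← GaussianInt.abs_natCast_norm p]
  simp

/-- a prime which divides its conjugate is almost a rational integer -/
theorem of_dvd_star {p : GaussianInt} (hp : p ≠ 0) (h : p ∣ star p) :
    ∃ l : ℕ, (l : GaussianInt) ∣ p ∧ nn p ≤ 2 * (l * l) := by
  obtain ⟨u, hu⟩ := h
  have h1 : nn u = 1 := by
    have h2 : nn (star p) = nn p * nn u := by rw [hu, nn_mul]
    rw [nn_star] at h2
    have h3 := nn_pos hp
    nlinarith
  have h2 : (u.re) * u.re + u.im * u.im = 1 := by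
    rw [← nn_int, h1]; rfl
  have hre : p.re = p.re * u.re + (-1) * p.im * u.im := by
    have := congrArg Zsqrtd.re hu
    simpa [Zsqrtd.re_mul] using this
  have him : -p.im = p.re * u.im + p.im * u.re := by
    have := congrArg Zsqrtd.im hu
    simpa [Zsqrtd.im_mul] using this
  have hur : u.re ≤ 1 ∧ -1 ≤ u.re := by constructor <;> nlinarith
  have hui : u.im ≤ 1 ∧ -1 ≤ u.im := by constructor <;> nlinarith
  have hnn := nn_int p
  have hcast : ∀ a : ℤ, ((a.natAbs : ℕ) : ℤ) * ((a.natAbs : ℕ) : ℤ) = a * a := fun a => by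
    rw [← Int.natAbs_mul_self' a]
  have hdv : ∀ (a : ℤ) (w : GaussianInt), p = (a : GaussianInt) * w →
      ((a.natAbs : ℕ) : GaussianInt) ∣ p := by
    intro a w hw
    rw [hw]
    apply Dvd.dvd.mul_right
    have e : ((a.natAbs : ℕ) : GaussianInt) = (((a.natAbs : ℕ) : ℤ) : GaussianInt) :=
      (Int.cast_natCast _).symm
    rw [e]
    exact map_dvd (Int.castRingHom GaussianInt) (Int.natAbs_dvd.2 (dvd_refl a))
  obtain ⟨hr1, hr2⟩ := hur
  obtain ⟨hi1, hi2⟩ := hui
  generalize hx : u.re = x at *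
  generalize hy : u.im = y at *
  interval_cases x <;> interval_cases y <;> simp at h2 hre him
  · -- u = -1
    have h0 : p.re = 0 := by omega
    refine ⟨p.im.natAbs, hdv p.im ⟨0, 1⟩ ?_, ?_⟩
    · apply Zsqrtd.ext
      · simp [h0]
      · simp
    · have h3 : (nn p : ℤ) ≤ 2 * ((p.im.natAbs : ℤ) * (p.im.natAbs : ℤ)) := by
        rw [hnn, hcast, h0]; nlinarith [mul_self_nonneg p.im]
      exact_mod_cast h3
  · refine ⟨p.re.natAbs, hdv p.re ⟨1, 1⟩ ?_, ?_⟩
    · apply Zsqrtd.ext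
      · simp
      · simp; omega
    · have h3 : (nn p : ℤ) ≤ 2 * ((p.re.natAbs : ℤ) * (p.re.natAbs : ℤ)) := by
        rw [hnn, hcast, show p.im = p.re by omega]; linarith
      exact_mod_cast h3
  · refine ⟨p.re.natAbs, hdv p.re ⟨1, -1⟩ ?_, ?_⟩
    · apply Zsqrtd.ext
      · simp
      · simp; omega
    · have h3 : (nn p : ℤ) ≤ 2 * ((p.re.natAbs : ℤ) * (p.re.natAbs : ℤ)) := by
        rw [hnn, hcast, show p.im = -p.re by omega]; linarith
      exact_mod_cast h3
  · have h0 : p.im = 0 := by omega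
    refine ⟨p.re.natAbs, hdv p.re ⟨1, 0⟩ ?_, ?_⟩
    · apply Zsqrtd.ext
      · simp
      · simp [h0]
    · have h3 : (nn p : ℤ) ≤ 2 * ((p.re.natAbs : ℤ) * (p.re.natAbs : ℤ)) := by
        rw [hnn, hcast, h0]; nlinarith [mul_self_nonneg p.re]
      exact_mod_cast h3

/-- the prime divisors are bounded -/
theorem bound_prime {R L Y : ℕ} (hR : R ≠ 0) (hL : 1 ≤ L) {q : GaussianInt} (hq : q ≠ 0)
    (hqY : nn q ≤ Y) (hno : ∀ l ∈ Ioc L Y, ¬ ((l : ℕ) : GaussianInt) ∣ q)
    (hG : ¬ ∃ p : GaussianInt, Prime p ∧ p ∣ q ∧ ¬ p ∣ (R : GaussianInt) ∧ ¬ star p ∣ q)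
    {p : GaussianInt} (hp : Prime p) (hpq : p ∣ q) : nn p ≤ 2 * (L * L) + R * R := by
  have hqp := nn_pos hq
  -- rational divisors are small
  have hsm : ∀ l : ℕ, ((l : ℕ) : GaussianInt) ∣ q → l ≤ L := by
    intro l hl
    by_contra hcon
    push Not at hcon
    have h1 : nn ((l : ℕ) : GaussianInt) ≤ nn q := Nat.le_of_dvd hqp (nn_dvd hl)
    rw [nn_natCast] at h1
    have h2 : l ≤ Y := by nlinarith
    exact hno l (mem_Ioc.2 ⟨hcon, h2⟩) hl
  by_cases hpR : p ∣ (R : GaussianInt)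
  · have h1 : nn p ∣ R * R := by
      rw [← nn_natCast]; exact nn_dvd hpR
    have h2 : 0 < R * R := by
      have : 0 < R := Nat.pos_of_ne_zero hR
      positivity
    have := Nat.le_of_dvd h2 h1
    omega
  · have hst : star p ∣ q := by
      by_contra hcon
      exact hG ⟨p, hp, hpq, hpR, hcon⟩
    by_cases hps : p ∣ star p
    · obtain ⟨l, h1, h2⟩ := of_dvd_star hp.ne_zero hps
      have h3 := hsm l (h1.trans hpq)
      have h4 : l * l ≤ L * L := Nat.mul_le_mul h3 h3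
      omega
    · have h1 : p * star p ∣ q := by
        obtain ⟨c, hc⟩ := hst
        have h2 : p ∣ c := by
          rw [hc] at hpq
          exact (hp.dvd_or_dvd hpq).resolve_left hps
        obtain ⟨e, he⟩ := h2
        exact ⟨e, by rw [hc, he]; ring⟩
      rw [mul_star_nn] at h1
      have h2 := hsm _ h1
      nlinarith

/-- the norm is smooth -/
theorem smooth {B : ℕ} {q : GaussianInt} (hq : q ≠ 0)
    (h : ∀ p : GaussianInt, Prime p → p ∣ q → nn p ≤ B) : nn q ∈ Nat.smoothNumbers (B + 1) := by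
  rw [Nat.mem_smoothNumbers]
  refine ⟨(nn_pos hq).ne', fun l hl => ?_⟩
  rw [Nat.mem_primeFactorsList (nn_pos hq).ne'] at hl
  obtain ⟨hlp, hlq⟩ := hl
  have h1 : Associated (UniqueFactorizationMonoid.factors q).prod q :=
    UniqueFactorizationMonoid.factors_prod hq
  have h2 : ∀ s : Multiset GaussianInt, nn s.prod = (s.map nn).prod := by
    intro s
    induction s using Multiset.induction_on with
    | empty => simp [nn_one]
    | cons a s ih => rw [Multiset.prod_cons, nn_mul, ih, Multiset.map_cons, Multiset.prod_cons]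
  have h3 : l ∣ ((UniqueFactorizationMonoid.factors q).map nn).prod := by
    rw [← h2]
    exact hlq.trans (nn_dvd h1.symm.dvd)
  obtain ⟨p, hp, hlp'⟩ := (Nat.Prime.prime hlp).exists_mem_multiset_map_dvd h3
  have hpp := UniqueFactorizationMonoid.prime_of_factor p hp
  have h4 := h p hpp (UniqueFactorizationMonoid.dvd_of_mem_factors hp)
  have h5 : l ≤ nn p := Nat.le_of_dvd (nn_pos hpp.ne_zero) hlp'
  omega

/-- the number of Gaussian integers of given norm -/
theorem count3 {n : ℕ} (hn : 1 ≤ n) (S : Finset GaussianInt) (hS : ∀ q ∈ S, nn q = n) :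
    (S.card : ℝ) ≤ 6 * Real.sqrt n := by
  classical
  obtain ⟨s, hs⟩ : ∃ s, s = Nat.sqrt n := ⟨_, rfl⟩
  have hs1 : 1 ≤ s := by
    rw [hs]
    exact Nat.le_sqrt.2 (by omega)
  have h1 : S.card ≤ 2 * (S.image fun q => q.re).card := by
    refine card_le_mul_card_image S 2 fun a ha => ?_
    obtain ⟨q, hq, rfl⟩ := mem_image.1 ha
    have h2 : (S.filter fun x => x.re = q.re) ⊆ {q, ⟨q.re, -q.im⟩} := by
      intro x hx
      rw [mem_filter] at hx
      have h3 : (nn x : ℤ) = nn q := by rw [hS x hx.1, hS q hq]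
      rw [nn_int, nn_int, hx.2] at h3
      have h4 : x.im * x.im = q.im * q.im := by linarith
      rw [mem_insert, mem_singleton]
      rcases mul_self_eq_mul_self_iff.1 h4 with h | h
      · left; exact Zsqrtd.ext hx.2 h
      · right; exact Zsqrtd.ext hx.2 h
    exact (card_le_card h2).trans card_le_two
  have h2 : (S.image fun q => q.re).card ≤ 2 * s + 1 := by
    have h3 : (S.image fun q => q.re) ⊆ Icc (-(s : ℤ)) s := by
      intro a ha
      obtain ⟨q, hq, rfl⟩ := mem_image.1 ha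
      have h4 := hS q hq
      rw [nn_eq] at h4
      have h5 : q.re.natAbs ≤ s := by
        rw [hs, Nat.le_sqrt]
        nlinarith
      rw [mem_Icc]
      omega
    refine (card_le_card h3).trans ?_
    rw [Int.card_Icc]
    omega
  have h3 : (s : ℝ) ≤ Real.sqrt n := by
    rw [hs]
    exact Real.nat_sqrt_le_real_sqrt
  have h4 : S.card ≤ 6 * s := by omega
  have h5 : (S.card : ℝ) ≤ 6 * s := by exact_mod_cast h4
  linarith

/-- the inverse square root as a multiplicative function -/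
noncomputable def isq : ℕ →* ℝ where
  toFun n := (Real.sqrt n)⁻¹
  map_one' := by simp
  map_mul' a b := by
    push_cast
    rw [Real.sqrt_mul (by positivity), mul_inv]

theorem exists_smooth_bound (B : ℕ) : ∃ C : ℝ, 0 ≤ C ∧ ∀ V : Finset ℕ, (∀ n ∈ V, n ∈ Nat.smoothNumbers B) →
    ∑ n ∈ V, (Real.sqrt n)⁻¹ ≤ C := by
  classical
  have h1 := EulerProduct.summable_and_hasSum_smoothNumbers_prod_primesBelow_geometric (f := isq)
    (fun {p} hp => by
      show ‖(Real.sqrt p)⁻¹‖ < 1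
      rw [norm_inv, Real.norm_eq_abs, abs_of_nonneg (Real.sqrt_nonneg _)]
      apply inv_lt_one_of_one_lt₀
      rw [Real.lt_sqrt (by norm_num)]
      have := hp.two_le
      have h2 : (2 : ℝ) ≤ p := by exact_mod_cast this
      linarith) B
  refine ⟨∏ p ∈ Nat.primesBelow B, (1 - isq p)⁻¹, ?_, fun V hV => ?_⟩
  · exact h1.2.nonneg fun m => by
      show (0 : ℝ) ≤ (Real.sqrt (m : ℕ))⁻¹
      positivity
  · have h2 : ∑ x ∈ V.subtype (fun n => n ∈ Nat.smoothNumbers B), isq (x : ℕ) = ∑ n ∈ V, isq n :=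
      sum_subtype_of_mem (fun n => isq n) hV
    have h3 : ∑ n ∈ V, (Real.sqrt n)⁻¹ = ∑ n ∈ V, isq n := rfl
    rw [h3, ← h2]
    exact sum_le_hasSum _ (fun m _ => by
      show (0 : ℝ) ≤ (Real.sqrt (m : ℕ))⁻¹
      positivity) h1.2

theorem part2 {R : ℕ} (hR : R ≠ 0) : ∀ δ : ℝ, 0 < δ → ∃ C : ℝ, 0 < C ∧
    ∀ (X Y : ℕ) (S : Finset GaussianInt), 1 ≤ X → X ≤ Y → (∀ q ∈ S, X < nn q ∧ nn q ≤ Y) →
    (∀ q ∈ S, ¬ ∃ p : GaussianInt, Prime p ∧ p ∣ q ∧ ¬ p ∣ (R : GaussianInt) ∧ ¬ star p ∣ q) →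
    ∑ q ∈ S, 1 / (nn q : ℝ) ≤ δ * Real.log ((Y : ℝ) / X) + C := by
  classical
  intro δ hδ
  obtain ⟨L, hL⟩ : ∃ L : ℕ, 36 / δ ≤ L := exists_nat_ge _
  obtain ⟨L', hL'1, hL'2⟩ : ∃ L' : ℕ, 1 ≤ L' ∧ L ≤ L' := ⟨L + 1, by omega, by omega⟩
  have hLδ : 36 / (L' : ℝ) ≤ δ := by
    have h1 : (0 : ℝ) < L' := by exact_mod_cast hL'1
    rw [div_le_iff₀ h1]
    rw [div_le_iff₀ hδ] at hL
    have h2 : (L : ℝ) ≤ L' := by exact_mod_cast hL'2
    nlinarith
  obtain ⟨C0, hC0, hC⟩ := exists_smooth_bound (2 * (L' * L') + R * R + 1)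
  refine ⟨δ + 6 * C0 + 1, by positivity, fun X Y S hX hXY hS hG => ?_⟩
  have hLL := (LL_log hX hXY).2
  set SA := S.filter fun q => ∃ l ∈ Ioc L' Y, ((l : ℕ) : GaussianInt) ∣ q with hSA
  set SB := S.filter fun q => ¬ ∃ l ∈ Ioc L' Y, ((l : ℕ) : GaussianInt) ∣ q with hSB
  have hsplit : ∑ q ∈ SA, 1 / (nn q : ℝ) + ∑ q ∈ SB, 1 / (nn q : ℝ) = ∑ q ∈ S, 1 / (nn q : ℝ) :=
    sum_filter_add_sum_filter_not S _ _
  -- multiples of large rational integers
  have hA : ∑ q ∈ SA, 1 / (nn q : ℝ) ≤ δ * LL X Y := by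
    have h1 : ∀ q ∈ SA, 1 / (nn q : ℝ) ≤ ∑ l ∈ Ioc L' Y, if ((l : ℕ) : GaussianInt) ∣ q then
        1 / (nn q : ℝ) else 0 := by
      intro q hq
      obtain ⟨l, hl, hd⟩ := (mem_filter.1 hq).2
      have h2 := single_le_sum (f := fun l : ℕ => if ((l : ℕ) : GaussianInt) ∣ q then
        1 / (nn q : ℝ) else 0) (fun l _ => by split_ifs <;> positivity) hl
      simp only [if_pos hd] at h2
      exact h2
    refine (sum_le_sum h1).trans ?_
    rw [sum_comm]
    have h2 : ∀ l ∈ Ioc L' Y, ∑ q ∈ SA, (if ((l : ℕ) : GaussianInt) ∣ q then 1 / (nn q : ℝ) else 0) ≤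
        36 * LL X Y * ((l : ℝ) ^ 2)⁻¹ := by
      intro l hl
      rw [← sum_filter]
      have hl0 : ((l : ℕ) : GaussianInt) ≠ 0 := by
        apply ne_of_nn
        rw [nn_natCast]
        have : 0 < l := by have := (mem_Ioc.1 hl).1; omega
        positivity
      have h3 := basic hl0 hX hXY (SA.filter fun q => ((l : ℕ) : GaussianInt) ∣ q)
        (fun q hq => hS q (mem_filter.1 (mem_filter.1 hq).1).1) (fun q hq => (mem_filter.1 hq).2)
      refine h3.trans (le_of_eq ?_)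
      rw [nn_natCast]
      push_cast
      rw [div_eq_mul_inv, sq]
    refine (sum_le_sum h2).trans ?_
    rw [← mul_sum]
    have h3 : ∑ l ∈ Ioc L' Y, ((l : ℝ) ^ 2)⁻¹ ≤ (L' : ℝ)⁻¹ := by
      by_cases hle : L' ≤ Y
      · refine (sum_Ioc_inv_sq_le_sub (by omega) hle).trans ?_
        have : (0 : ℝ) ≤ (Y : ℝ)⁻¹ := by positivity
        linarith
      · rw [Ioc_eq_empty (by omega), sum_empty]
        positivity
    calc 36 * LL X Y * ∑ l ∈ Ioc L' Y, ((l : ℝ) ^ 2)⁻¹ ≤ 36 * LL X Y * (L' : ℝ)⁻¹ :=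
          mul_le_mul_of_nonneg_left h3 (by linarith)
      _ = 36 / (L' : ℝ) * LL X Y := by ring
      _ ≤ δ * LL X Y := mul_le_mul_of_nonneg_right hLδ (by linarith)
  -- the rest has smooth norm
  have hB : ∑ q ∈ SB, 1 / (nn q : ℝ) ≤ 6 * C0 := by
    have hBs : ∀ q ∈ SB, nn q ∈ Nat.smoothNumbers (2 * (L' * L') + R * R + 1) ∧ 1 ≤ nn q := by
      intro q hq
      obtain ⟨hq1, hq2⟩ := mem_filter.1 hq
      have hq0 : q ≠ 0 := ne_of_nn (by have := hS q hq1; omega)
      refine ⟨smooth hq0 fun p hp hpq => ?_, nn_pos hq0⟩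
      refine bound_prime hR hL'1 hq0 (hS q hq1).2 (fun l hl hd => hq2 ⟨l, hl, hd⟩) (hG q hq1) hp hpq
    have hmaps : ∀ q ∈ SB, nn q ∈ SB.image nn := fun q hq => mem_image_of_mem nn hq
    rw [← sum_fiberwise_of_maps_to hmaps]
    have h1 : ∀ n ∈ SB.image nn, ∑ q ∈ SB.filter (fun q => nn q = n), 1 / (nn q : ℝ) ≤
        6 * (Real.sqrt n)⁻¹ := by
      intro n hn
      obtain ⟨q₀, hq₀, hqn⟩ := mem_image.1 hn
      have hn1 : 1 ≤ n := by rw [← hqn]; exact (hBs q₀ hq₀).2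
      have hn0 : (0 : ℝ) < n := by exact_mod_cast hn1
      have h2 : ∑ q ∈ SB.filter (fun q => nn q = n), 1 / (nn q : ℝ) =
          ((SB.filter (fun q => nn q = n)).card : ℝ) / n := by
        rw [sum_congr rfl fun q hq => by rw [(mem_filter.1 hq).2], sum_const, nsmul_eq_mul, mul_one_div]
      rw [h2, div_le_iff₀ hn0]
      have h3 := count3 hn1 (SB.filter fun q => nn q = n) fun q hq => (mem_filter.1 hq).2
      refine h3.trans (le_of_eq ?_)
      have hsq : Real.sqrt n * Real.sqrt n = n := Real.mul_self_sqrt hn0.le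
      have hs0 : Real.sqrt n ≠ 0 := (Real.sqrt_pos.2 hn0).ne'
      calc 6 * Real.sqrt n = 6 * ((Real.sqrt n)⁻¹ * (Real.sqrt n * Real.sqrt n)) := by
            rw [← mul_assoc (Real.sqrt n)⁻¹, inv_mul_cancel₀ hs0, one_mul]
        _ = 6 * (Real.sqrt n)⁻¹ * n := by rw [hsq]; ring
    refine (sum_le_sum h1).trans ?_
    rw [← mul_sum]
    have h2 := hC (SB.image nn) (fun n hn => by
      obtain ⟨q, hq, rfl⟩ := mem_image.1 hn
      exact (hBs q hq).1)
    linarith
  rw [← hsplit]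
  unfold LL at hA hLL
  nlinarith

end Pool.Agent.Y977.D4
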