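import Pool.Agent.Y773.D4.Def
import Pool.Agent.Y977.D4.MassCore2

/-!
# D4-MASS: almost all moduli have a large divisor prime to `R`, and a suitable prime divisor
-/

set_option autoImplicit false

open Finset

namespace Pool.Agent.Y977.D4

theorem t_mass : Pool.Agent.Y773.D4.St_MASS := by
  classical
  intro R hR
  obtain ⟨d, hd1, C, hC, hd2⟩ := part1 hR
  refine ⟨d, hd1, ⟨C, hC, fun X Y S hX hXY hS => hd2 X Y S hX hXY hS⟩, fun δ hδ => ?_⟩
  obtain ⟨C', hC', h⟩ := part2 hR δ hδ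
  refine ⟨C', hC', fun X Y S hX hXY hS => ?_⟩
  exact h X Y _ hX hXY (fun q hq => hS q (mem_filter.1 hq).1) (fun q hq => (mem_filter.1 hq).2)

end Pool.Agent.Y977.D4
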