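import Mathlib

/-!
# Gaussian integers: sums over moduli (core)
-/

set_option autoImplicit false
set_option linter.unusedSectionVars false

open Finset

namespace Pool.Agent.Y977.D4

/-- the norm as a natural number -/
def nn (q : GaussianInt) : ℕ := q.norm.natAbs

theorem nn_mul (a b : GaussianInt) : nn (a * b) = nn a * nn b := by
  unfold nn
  rw [Zsqrtd.norm_mul, Int.natAbs_mul]

theorem nn_eq (a : GaussianInt) : nn a = a.re.natAbs * a.re.natAbs + a.im.natAbs * a.im.natAbs :=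
  GaussianInt.natAbs_norm_eq a

theorem nn_int (a : GaussianInt) : (nn a : ℤ) = a.re * a.re + a.im * a.im := by
  rw [nn_eq]
  push_cast
  rw [← abs_mul_abs_self a.re, ← abs_mul_abs_self a.im]

theorem nn_pos {a : GaussianInt} (h : a ≠ 0) : 0 < nn a := by
  unfold nn
  rw [Int.natAbs_pos]
  exact fun h0 => h (GaussianInt.norm_eq_zero.1 h0)

theorem ne_of_nn {a : GaussianInt} (h : 0 < nn a) : a ≠ 0 := by
  rintro rfl
  simp [nn] at h

theorem nn_one : nn 1 = 1 := by simp [nn]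

theorem nn_pow (a : GaussianInt) (k : ℕ) : nn (a ^ k) = nn a ^ k := by
  induction k with
  | zero => simp [nn_one]
  | succ k ih => rw [pow_succ, nn_mul, ih, pow_succ]

theorem nn_natCast (n : ℕ) : nn (n : GaussianInt) = n * n := by
  unfold nn
  rw [Zsqrtd.norm_natCast, Int.natAbs_mul]
  simp

theorem nn_prime {p : GaussianInt} (hp : Prime p) : 2 ≤ nn p := by
  have h1 := nn_pos hp.ne_zero
  have h2 : nn p ≠ 1 := fun h => hp.not_isUnit (Zsqrtd.norm_eq_one_iff.1 h)
  omega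

theorem nn_dvd {a b : GaussianInt} (h : a ∣ b) : nn a ∣ nn b := by
  obtain ⟨c, rfl⟩ := h
  rw [nn_mul]
  exact dvd_mul_right _ _

/-- counting -/
theorem count1 (m : ℕ) (S : Finset GaussianInt) (hS : ∀ q ∈ S, q ≠ 0 ∧ nn q ≤ m) :
    S.card ≤ 9 * m := by
  classical
  rcases Nat.eq_zero_or_pos m with h0 | h0
  · have : S = ∅ := by
      rw [eq_empty_iff_forall_notMem]
      intro q hq
      have h1 := nn_pos (hS q hq).1
      have h2 := (hS q hq).2
      omega
    rw [this]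
    simp
  · obtain ⟨s, hs⟩ : ∃ s, s = Nat.sqrt m := ⟨_, rfl⟩
    have hs1 : 1 ≤ s := by
      rw [hs]
      exact Nat.le_sqrt.2 (by omega)
    have hsm : s * s ≤ m := by rw [hs]; exact Nat.sqrt_le m
    have h1 : S.card ≤ ((Icc (-(s : ℤ)) s) ×ˢ (Icc (-(s : ℤ)) s)).card := by
      refine card_le_card_of_injOn (fun q => (q.re, q.im)) ?_ ?_
      · intro q hq
        have h2 := (hS q hq).2
        rw [nn_eq] at h2
        have h3 : q.re.natAbs ≤ s := by
          rw [hs, Nat.le_sqrt]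
          nlinarith
        have h4 : q.im.natAbs ≤ s := by
          rw [hs, Nat.le_sqrt]
          nlinarith
        simp only [coe_product, Set.mem_prod, mem_coe, mem_Icc]
        omega
      · intro a _ b _ hab
        simp only [Prod.mk.injEq] at hab
        exact Zsqrtd.ext hab.1 hab.2
    have h5 : ((Icc (-(s : ℤ)) s) ×ˢ (Icc (-(s : ℤ)) s)).card = (2 * s + 1) * (2 * s + 1) := by
      rw [card_product, Int.card_Icc]
      have : ((s : ℤ) + 1 - -(s : ℤ)).toNat = 2 * s + 1 := by omega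
      rw [this]
    rw [h5] at h1
    nlinarith

theorem count2 {z : GaussianInt} (hz : z ≠ 0) (M : ℕ) (S : Finset GaussianInt)
    (hS : ∀ q ∈ S, q ≠ 0 ∧ z ∣ q ∧ nn q ≤ M) : S.card * nn z ≤ 9 * M := by
  classical
  choose! w hw using fun q (hq : q ∈ S) => (hS q hq).2.1
  have hzp := nn_pos hz
  have h1 : (S.image w).card = S.card := by
    refine card_image_of_injOn fun a ha b hb hab => ?_
    rw [hw a ha, hw b hb, hab]
  have h2 := count1 (M / nn z) (S.image w) (by
    intro x hx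
    obtain ⟨q, hq, rfl⟩ := mem_image.1 hx
    have h3 := hS q hq
    constructor
    · intro h0
      apply h3.1
      rw [hw q hq, h0, mul_zero]
    · rw [Nat.le_div_iff_mul_le hzp]
      have h4 := h3.2.2
      rw [hw q hq, nn_mul] at h4
      linarith)
  rw [h1] at h2
  calc S.card * nn z ≤ 9 * (M / nn z) * nn z := Nat.mul_le_mul_right _ h2
    _ = 9 * (M / nn z * nn z) := by ring
    _ ≤ 9 * M := Nat.mul_le_mul_left _ (Nat.div_mul_le_self _ _)

/-- the logarithmic factor -/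
noncomputable def LL (X Y : ℕ) : ℝ := Real.log ((Y : ℝ) / X) + 1

theorem LL_log {X Y : ℕ} (hX : 1 ≤ X) (hXY : X ≤ Y) :
    ((Nat.log 2 (Y / X) : ℕ) : ℝ) + 1 ≤ 2 * LL X Y ∧ 1 ≤ LL X Y := by
  have hX' : (0 : ℝ) < X := by exact_mod_cast hX
  have h1 : 1 ≤ Y / X := (Nat.one_le_div_iff (by omega)).2 hXY
  have h2 : 2 ^ Nat.log 2 (Y / X) ≤ Y / X := Nat.pow_log_le_self 2 (by omega)
  have h3 : ((2 : ℝ)) ^ Nat.log 2 (Y / X) ≤ (Y : ℝ) / X := by
    have h4 : ((2 ^ Nat.log 2 (Y / X) : ℕ) : ℝ) ≤ ((Y / X : ℕ) : ℝ) := by exact_mod_cast h2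
    push_cast at h4
    exact h4.trans Nat.cast_div_le
  have h5 : (Nat.log 2 (Y / X) : ℝ) * Real.log 2 ≤ Real.log ((Y : ℝ) / X) := by
    rw [← Real.log_pow]
    exact Real.log_le_log (by positivity) h3
  have h6 := Real.log_two_gt_d9
  have h7 : (0 : ℝ) ≤ Nat.log 2 (Y / X) := by positivity
  have h8 : 0 ≤ Real.log ((Y : ℝ) / X) := by nlinarith
  unfold LL
  constructor
  · nlinarith
  · linarith

/-- **the basic estimate** -/
theorem basic {z : GaussianInt} (hz : z ≠ 0) {X Y : ℕ} (hX : 1 ≤ X) (hXY : X ≤ Y)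
    (S : Finset GaussianInt) (hS : ∀ q ∈ S, X < nn q ∧ nn q ≤ Y) (hd : ∀ q ∈ S, z ∣ q) :
    ∑ q ∈ S, 1 / (nn q : ℝ) ≤ 36 * LL X Y / nn z := by
  classical
  set K := Nat.log 2 (Y / X) with hK
  have hzp : (0 : ℝ) < nn z := by exact_mod_cast nn_pos hz
  have hX' : (0 : ℝ) < X := by exact_mod_cast hX
  have hmaps : ∀ q ∈ S, Nat.log 2 (nn q / X) ∈ range (K + 1) := by
    intro q hq
    rw [mem_range, Nat.lt_succ_iff]
    exact Nat.log_mono_right (Nat.div_le_div_right (hS q hq).2)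
  rw [← sum_fiberwise_of_maps_to hmaps]
  have h1 : ∀ k ∈ range (K + 1), ∑ q ∈ S.filter (fun q => Nat.log 2 (nn q / X) = k), 1 / (nn q : ℝ) ≤
      18 / nn z := by
    intro k _
    have h2 : ∀ q ∈ S.filter (fun q => Nat.log 2 (nn q / X) = k), 2 ^ k * X ≤ nn q ∧
        nn q ≤ 2 ^ (k + 1) * X ∧ q ≠ 0 ∧ z ∣ q := by
      intro q hq
      rw [mem_filter] at hq
      obtain ⟨hq, hk⟩ := hq
      have h3 := hS q hq
      have h4 : 1 ≤ nn q / X := (Nat.one_le_div_iff (by omega)).2 h3.1.le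
      refine ⟨?_, ?_, ne_of_nn (by omega), hd q hq⟩
      · have h5 : 2 ^ k ≤ nn q / X := by
          rw [← hk]; exact Nat.pow_log_le_self 2 (by omega)
        rw [Nat.le_div_iff_mul_le (by omega)] at h5
        exact h5
      · have h5 : nn q / X < 2 ^ (k + 1) := by
          rw [← hk]; exact Nat.lt_pow_succ_log_self (by norm_num) _
        rw [Nat.div_lt_iff_lt_mul (by omega)] at h5
        exact h5.le
    have h3 := count2 hz (2 ^ (k + 1) * X) _ fun q hq => ⟨(h2 q hq).2.2.1, (h2 q hq).2.2.2, (h2 q hq).2.1⟩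
    set S' := S.filter (fun q => Nat.log 2 (nn q / X) = k) with hS'
    have h4 : ∑ q ∈ S', 1 / (nn q : ℝ) ≤ ∑ q ∈ S', 1 / ((2 : ℝ) ^ k * X) := by
      refine sum_le_sum fun q hq => ?_
      apply one_div_le_one_div_of_le (by positivity)
      exact_mod_cast (h2 q hq).1
    refine h4.trans ?_
    rw [sum_const, nsmul_eq_mul, mul_one_div, div_le_div_iff₀ (by positivity) hzp]
    have h5 : ((S'.card * nn z : ℕ) : ℝ) ≤ ((9 * (2 ^ (k + 1) * X) : ℕ) : ℝ) := by exact_mod_cast h3
    push_cast at h5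
    rw [pow_succ] at h5
    linarith
  refine (sum_le_sum h1).trans ?_
  rw [sum_const, card_range, nsmul_eq_mul, ← mul_div_assoc]
  apply div_le_div_of_nonneg_right _ hzp.le
  have := (LL_log hX hXY).1
  push_cast
  linarith

/-! ### the divisor prime to `R` -/

/-- number of powers of `p` dividing `q` -/
noncomputable def mc (p q : GaussianInt) : ℕ := by
  classical
  exact ((Icc 1 (nn q)).filter fun j => p ^ j ∣ q).card

theorem mc_mono {p q q' : GaussianInt} (h1 : q' ∣ q) (h2 : nn q' ≤ nn q) : mc p q' ≤ mc p q := by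
  classical
  unfold mc
  refine card_le_card fun j hj => ?_
  rw [mem_filter, mem_Icc] at hj ⊢
  exact ⟨⟨hj.1.1, hj.1.2.trans h2⟩, hj.2.trans h1⟩

theorem mc_succ {p q q' : GaussianInt} (h1 : q = p * q') (h2 : nn q' < nn q) :
    mc p q' + 1 ≤ mc p q := by
  classical
  unfold mc
  have h3 : (((Icc 1 (nn q')).filter fun j => p ^ j ∣ q').image (fun j => j + 1)).card =
      ((Icc 1 (nn q')).filter fun j => p ^ j ∣ q').card :=
    card_image_of_injective _ (fun a b h => by simpa using h)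
  rw [← h3, ← card_insert_of_notMem (a := 1)]
  · refine card_le_card fun j hj => ?_
    rw [mem_insert] at hj
    rw [mem_filter, mem_Icc]
    rcases hj with rfl | hj
    · exact ⟨⟨le_rfl, by omega⟩, by rw [pow_one, h1]; exact dvd_mul_right _ _⟩
    · obtain ⟨i, hi, rfl⟩ := mem_image.1 hj
      rw [mem_filter, mem_Icc] at hi
      refine ⟨⟨by omega, by omega⟩, ?_⟩
      rw [pow_succ', h1]
      exact mul_dvd_mul_left _ hi.2
  · intro h
    obtain ⟨i, hi, h5⟩ := mem_image.1 h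
    rw [mem_filter, mem_Icc] at hi
    omega

theorem exists_d {R : ℕ} (hR : R ≠ 0) (PP : Finset GaussianInt) (hPP : ∀ p ∈ PP, Prime p)
    (hPR : ∀ p, Prime p → p ∣ (R : GaussianInt) → ∃ p' ∈ PP, p' ∣ p) :
    ∀ (n : ℕ) (q : GaussianInt), q ≠ 0 → nn q ≤ n → ∃ d : GaussianInt, d ≠ 0 ∧ d ∣ q ∧
      IsCoprime d (R : GaussianInt) ∧ Real.log (nn q) - Real.log (nn d) ≤
        ∑ p ∈ PP, (mc p q : ℝ) * Real.log (nn p) := by
  classical
  have hlog : ∀ p ∈ PP, 0 ≤ Real.log (nn p) := fun p hp =>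
    Real.log_nonneg (by have := nn_prime (hPP p hp); exact_mod_cast (by omega : 1 ≤ nn p))
  intro n
  induction n with
  | zero =>
    intro q hq h
    have := nn_pos hq
    omega
  | succ n ih =>
    intro q hq hn
    by_cases hex : ∃ p ∈ PP, p ∣ q
    · obtain ⟨p, hp, q', hq'⟩ := hex
      have hq0 : q' ≠ 0 := by
        rintro rfl
        exact hq (by rw [hq', mul_zero])
      have hp2 := nn_prime (hPP p hp)
      have hq1 := nn_pos hq0
      have hmul : nn q = nn p * nn q' := by rw [hq', nn_mul]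
      have hlt : nn q' < nn q := by rw [hmul]; nlinarith
      obtain ⟨d, d1, d2, d3, d4⟩ := ih q' hq0 (by omega)
      refine ⟨d, d1, d2.trans ⟨p, by rw [hq']; ring⟩, d3, ?_⟩
      have h1 : Real.log (nn q) = Real.log (nn p) + Real.log (nn q') := by
        rw [hmul]
        push_cast
        rw [Real.log_mul]
        · exact_mod_cast (by omega : nn p ≠ 0)
        · exact_mod_cast (by omega : nn q' ≠ 0)
      have h2 : Real.log (nn p) = ∑ p' ∈ PP, (if p' = p then (1 : ℝ) else 0) * Real.log (nn p') := by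
        simp only [ite_mul, one_mul, zero_mul]
        rw [sum_ite_eq' PP p fun p' => Real.log (nn p'), if_pos hp]
      have h3 : ∑ p' ∈ PP, (if p' = p then (1 : ℝ) else 0) * Real.log (nn p') +
          ∑ p' ∈ PP, (mc p' q' : ℝ) * Real.log (nn p') ≤ ∑ p' ∈ PP, (mc p' q : ℝ) * Real.log (nn p') := by
        rw [← sum_add_distrib]
        refine sum_le_sum fun p' hp' => ?_
        rw [← add_mul]
        apply mul_le_mul_of_nonneg_right _ (hlog p' hp')
        by_cases hpp : p' = p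
        · rw [if_pos hpp, hpp]
          have := mc_succ hq' hlt
          have h4 : ((mc p q' + 1 : ℕ) : ℝ) ≤ mc p q := by exact_mod_cast this
          push_cast at h4
          linarith
        · rw [if_neg hpp, zero_add]
          exact_mod_cast mc_mono ⟨p, by rw [hq']; ring⟩ hlt.le
      linarith
    · push Not at hex
      refine ⟨q, hq, dvd_rfl, ?_, ?_⟩
      · refine isCoprime_of_prime_dvd (fun h => hq h.1) fun p hp hpq hpR => ?_
        obtain ⟨p', hp', hd⟩ := hPR p hp hpR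
        exact hex p' hp' (hd.trans hpq)
      · rw [sub_self]
        exact sum_nonneg fun p hp => mul_nonneg (by positivity) (hlog p hp)

theorem sum_half (Y : ℕ) : ∑ j ∈ Icc 1 Y, ((1 : ℝ) / 2) ^ j = 1 - (1 / 2) ^ Y := by
  induction Y with
  | zero => simp
  | succ Y ih =>
    rw [Finset.sum_Icc_succ_top (by omega), ih, pow_succ]
    ring

theorem sum_mc {p : GaussianInt} (hp : Prime p) {X Y : ℕ} (hX : 1 ≤ X) (hXY : X ≤ Y)
    (S : Finset GaussianInt) (hS : ∀ q ∈ S, X < nn q ∧ nn q ≤ Y) :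
    ∑ q ∈ S, (mc p q : ℝ) / nn q ≤ 36 * LL X Y := by
  classical
  have h1 : ∀ q ∈ S, (mc p q : ℝ) / nn q ≤ ∑ j ∈ Icc 1 Y, if p ^ j ∣ q then 1 / (nn q : ℝ) else 0 := by
    intro q hq
    rw [← sum_filter, sum_const, nsmul_eq_mul, mul_one_div]
    apply div_le_div_of_nonneg_right _ (by positivity)
    have : mc p q ≤ ((Icc 1 Y).filter fun j => p ^ j ∣ q).card := by
      unfold mc
      refine card_le_card fun j hj => ?_
      rw [mem_filter, mem_Icc] at hj ⊢
      exact ⟨⟨hj.1.1, hj.1.2.trans (hS q hq).2⟩, hj.2⟩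
    exact_mod_cast this
  refine (sum_le_sum h1).trans ?_
  rw [sum_comm]
  have h2 : ∀ j ∈ Icc 1 Y, ∑ q ∈ S, (if p ^ j ∣ q then 1 / (nn q : ℝ) else 0) ≤
      36 * LL X Y * (1 / 2) ^ j := by
    intro j _
    rw [← sum_filter]
    have h3 := basic (pow_ne_zero j hp.ne_zero) hX hXY (S.filter fun q => p ^ j ∣ q)
      (fun q hq => hS q (mem_filter.1 hq).1) (fun q hq => (mem_filter.1 hq).2)
    refine h3.trans ?_
    rw [nn_pow, div_eq_mul_inv]
    have hLL := (LL_log hX hXY).2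
    apply mul_le_mul_of_nonneg_left _ (by linarith)
    push_cast
    rw [one_div, inv_pow]
    apply inv_anti₀ (by positivity)
    apply pow_le_pow_left₀ (by norm_num)
    exact_mod_cast nn_prime hp
  refine (sum_le_sum h2).trans ?_
  rw [← mul_sum, sum_half]
  have hLL := (LL_log hX hXY).2
  have h3 : 1 - (1 / 2 : ℝ) ^ Y ≤ 1 := by
    have : (0 : ℝ) ≤ (1 / 2) ^ Y := by positivity
    linarith
  calc 36 * LL X Y * (1 - (1 / 2 : ℝ) ^ Y) ≤ 36 * LL X Y * 1 :=
        mul_le_mul_of_nonneg_left h3 (by linarith)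
    _ = _ := mul_one _

theorem part1 {R : ℕ} (hR : R ≠ 0) : ∃ d : GaussianInt → GaussianInt,
    (∀ q : GaussianInt, q ≠ 0 → d q ≠ 0 ∧ d q ∣ q ∧ IsCoprime (d q) (R : GaussianInt)) ∧
    (∃ C : ℝ, 0 < C ∧ ∀ (X Y : ℕ) (S : Finset GaussianInt), 1 ≤ X → X ≤ Y →
      (∀ q ∈ S, X < nn q ∧ nn q ≤ Y) →
      ∑ q ∈ S, (Real.log (nn q : ℝ) - Real.log (nn (d q) : ℝ)) / (nn q : ℝ) ≤ C * LL X Y) := by
  classical
  have hR' : (R : GaussianInt) ≠ 0 := by
    have : 0 < nn (R : GaussianInt) := by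
      rw [nn_natCast]
      have : 0 < R := Nat.pos_of_ne_zero hR
      positivity
    exact ne_of_nn this
  set PP := (UniqueFactorizationMonoid.factors (R : GaussianInt)).toFinset with hPPdef
  have hPP : ∀ p ∈ PP, Prime p := fun p hp =>
    UniqueFactorizationMonoid.prime_of_factor p (Multiset.mem_toFinset.1 hp)
  have hPR : ∀ p, Prime p → p ∣ (R : GaussianInt) → ∃ p' ∈ PP, p' ∣ p := by
    intro p hp hd
    obtain ⟨p', h1, h2⟩ := UniqueFactorizationMonoid.exists_mem_factors_of_dvd hR' hp.irreducible hd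
    exact ⟨p', Multiset.mem_toFinset.2 h1, h2.symm.dvd⟩
  have hex : ∀ q : GaussianInt, ∃ d : GaussianInt, q ≠ 0 → d ≠ 0 ∧ d ∣ q ∧
      IsCoprime d (R : GaussianInt) ∧ Real.log (nn q) - Real.log (nn d) ≤
        ∑ p ∈ PP, (mc p q : ℝ) * Real.log (nn p) := by
    intro q
    by_cases hq : q = 0
    · exact ⟨0, fun h => absurd hq h⟩
    · obtain ⟨d, hd⟩ := exists_d hR PP hPP hPR (nn q) q hq le_rfl
      exact ⟨d, fun _ => hd⟩
  choose d hd using hex
  refine ⟨d, fun q hq => ⟨(hd q hq).1, (hd q hq).2.1, (hd q hq).2.2.1⟩,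
    36 * (∑ p ∈ PP, Real.log (nn p)) + 1, ?_, ?_⟩
  · have : 0 ≤ ∑ p ∈ PP, Real.log (nn p) := sum_nonneg fun p hp =>
      Real.log_nonneg (by have := nn_prime (hPP p hp); exact_mod_cast (by omega : 1 ≤ nn p))
    linarith
  · intro X Y S hX hXY hS
    have hLL := (LL_log hX hXY).2
    have h1 : ∑ q ∈ S, (Real.log (nn q : ℝ) - Real.log (nn (d q) : ℝ)) / (nn q : ℝ) ≤
        ∑ q ∈ S, ∑ p ∈ PP, Real.log (nn p) * ((mc p q : ℝ) / nn q) := by
      refine sum_le_sum fun q hq => ?_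
      have hq0 : q ≠ 0 := ne_of_nn (by have := hS q hq; omega)
      have h2 := (hd q hq0).2.2.2
      have h3 : ∑ p ∈ PP, Real.log (nn p) * ((mc p q : ℝ) / nn q) =
          (∑ p ∈ PP, (mc p q : ℝ) * Real.log (nn p)) / nn q := by
        rw [sum_div]
        refine sum_congr rfl fun p _ => ?_
        ring
      rw [h3]
      exact div_le_div_of_nonneg_right h2 (by positivity)
    refine h1.trans ?_
    rw [sum_comm]
    have h4 : ∀ p ∈ PP, ∑ q ∈ S, Real.log (nn p) * ((mc p q : ℝ) / nn q) ≤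
        Real.log (nn p) * (36 * LL X Y) := by
      intro p hp
      rw [← mul_sum]
      apply mul_le_mul_of_nonneg_left (sum_mc (hPP p hp) hX hXY S hS)
      exact Real.log_nonneg (by have := nn_prime (hPP p hp); exact_mod_cast (by omega : 1 ≤ nn p))
    refine (sum_le_sum h4).trans ?_
    rw [← sum_mul]
    linarith

end Pool.Agent.Y977.D4
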